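import Mathlib
import Pool.Agent.H358R3.EqFinal

/-!
For every field `F` of characteristic zero and every `n ≥ 3` the equality problem (uniform word
problem) is undecidable in the variety `M(n)` generated by the algebra of `n × n` matrices over
`F`, even with a suitable fixed list of premises.

Idea. For a generalised Collatz map `N = m k + b ↦ a_b k + e_b` (`b < m`) with undecidable halting
problem take generators `s, x, z, u, T, T_b` and relations `x^m T = T z`, `x^{a_b} T_b = T_b z`,
`T_b u = T u` and `s x^b T = s x^{e_b} T_b` (`s x^b T = 0` for a halting residue `b`). Then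
`s x^N T u = 0` whenever `N` halts. Conversely the path algebra of a cyclic quiver with three
vertices (`s : 0 → 1`, `x : 1 → 1`, `T, T_b : 1 → 2`, `z : 2 → 2`, `u : 2 → 0`) lies in
`3 × 3` matrices over a commutative ring, and its quotient by the syntactic ideal of a suitable
linear functional satisfies the relations and does not kill `s x^N T u` if `N` does not halt.
-/

universe u

namespace Pool.Agent.Results.MP_79b5eb_lc.MatrixVarieties

open Pool.Agent.H358R3.EqP Pool.Agent.Helper707.Rel

/-- The quasi-identity `q` holds in every algebra of the variety `M(n)`. -/
def HoldsInM (F : Type u) [Field F] (n : ℕ) (q : QuasiId) : Prop :=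
  ∀ (A : Type u) [NonUnitalRing A] [Module F A] [IsScalarTower F A A] [SMulCommClass F A A],
    InM F n A → Holds F A q

/-- **Main theorem.** Let `F` be a field of characteristic zero and `n ≥ 3`. There is no algorithm
which decides whether a quasi-identity holds in all algebras of the variety `M(n)`, not even for
quasi-identities whose list of premises is a suitable fixed one. -/
theorem result (F : Type u) [Field F] [CharZero F] (n : ℕ) (hn : 3 ≤ n) :
    ¬ ComputablePred (HoldsInM F n) ∧
      ∃ R : List (NPoly (Bool × ℕ × ℕ)),
        ¬ ComputablePred fun g : NPoly (Bool × ℕ × ℕ) => HoldsInM F n (R, g) := by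
  refine undecidable (HoldsInM F n) fun Y N hm => ⟨fun h => ?_, fun h => ?_⟩
  · by_contra hN
    obtain ⟨A, _, _, hM, _, hH⟩ := exists_model (F := F) hm N hN
    exact hH (h A (hM n hn))
  · intro A _ _ _ _ _
    exact holds_of_halts hm h A

end Pool.Agent.Results.MP_79b5eb_lc.MatrixVarieties
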